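import Pool.Agent.helper71.SB.Super
import Pool.Agent.helper68.Poly.Stmt

set_option autoImplicit false

/-!
# A polynomial lower bound in every window (helper71, MP_d35578_co)
-/

open Finset Filter Topology

namespace Pool.Agent.helper71.SB

open Pool.Agent.helper68 Pool.Agent.helper68.Poly

variable {α : ℝ}

/-- one cut, in terms of the ratios `B n / α ^ n` -/
theorem cut_real (hα0 : 0 < α)
    {n s : ℕ} (hs : 1 ≤ s) (h : 4 * s ≤ n + 2) :
    ∃ k, s ≤ k ∧ k + 2 ≤ 3 * s ∧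
      B n / α ^ n ≤ 8 * s * (A k / α ^ k) * (A (n - k) / α ^ (n - k)) := by
  classical
  have hn1 : 1 ≤ n := by omega
  have h1 := split_ineq hs h
  have h2 : B n ≤ 4 * ∑ k ∈ Finset.Icc s (3 * s - 2), (A k : ℝ) * A (n - k) := by
    have h3 : B n ≤ (BL n n).card := by
      unfold B
      rw [div_le_iff₀ (by exact_mod_cast hn1), mul_comm]
      have := card_AL_le n n
      unfold A
      exact_mod_cast this
    refine h3.trans ?_
    exact_mod_cast h1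
  by_contra hcon
  push Not at hcon
  have h4 : ∀ k ∈ Finset.Icc s (3 * s - 2),
      (A k : ℝ) * A (n - k) ≤ B n / (8 * s) := by
    intro k hk
    rw [Finset.mem_Icc] at hk
    have h5 := hcon k hk.1 (by omega)
    have hs0 : (0 : ℝ) < s := by exact_mod_cast hs
    have e : α ^ n = α ^ k * α ^ (n - k) := by
      rw [← pow_add]
      congr 1
      omega
    rw [le_div_iff₀ (by positivity)]
    have hp : 0 < α ^ k := by positivity
    have hp' : 0 < α ^ (n - k) := by positivity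
    rw [lt_div_iff₀ (by positivity), e] at h5
    have e2 : 8 * (s : ℝ) * ((A k : ℝ) / α ^ k) * ((A (n - k) : ℝ) / α ^ (n - k)) *
        (α ^ k * α ^ (n - k)) = (A k : ℝ) * A (n - k) * (8 * s) := by
      field_simp
    rw [e2] at h5
    exact h5.le
  have h6 : ∑ k ∈ Finset.Icc s (3 * s - 2), (A k : ℝ) * A (n - k) ≤
      ((Finset.Icc s (3 * s - 2)).card : ℝ) * (B n / (8 * s)) := by
    rw [← nsmul_eq_mul]
    exact Finset.sum_le_card_nsmul _ _ _ h4
  rw [Nat.card_Icc] at h6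
  have hs0 : (0 : ℝ) < s := by exact_mod_cast hs
  have hB : 0 < B n := B_pos hn1
  have h7 : ((3 * s - 2 + 1 - s : ℕ) : ℝ) ≤ 2 * s - 1 := by
    have : (3 * s - 2 + 1 - s : ℕ) + 1 = 2 * s := by omega
    have h8 : ((3 * s - 2 + 1 - s : ℕ) : ℝ) + 1 = 2 * s := by exact_mod_cast this
    linarith
  have h9 : ((3 * s - 2 + 1 - s : ℕ) : ℝ) * (B n / (8 * s)) ≤ (2 * s - 1) * (B n / (8 * s)) :=
    mul_le_mul_of_nonneg_right h7 (by positivity)
  have h10 : (2 * (s : ℝ) - 1) * (B n / (8 * s)) * 4 < B n := by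
    have : (2 * (s : ℝ) - 1) * (B n / (8 * s)) * 4 = B n - B n / (2 * s) := by
      field_simp
      ring
    rw [this]
    have : 0 < B n / (2 * s) := by positivity
    linarith
  linarith

/-- `ρ n = B n / α ^ n` -/
noncomputable def rho (α : ℝ) (n : ℕ) : ℝ := B n / α ^ n

theorem rho_eq {n : ℕ} (hn : 1 ≤ n) : (A n : ℝ) / α ^ n = n * rho α n := by
  unfold rho
  rw [← mul_div_assoc, n_mul_B hn]

theorem rho_le (hα : Tendsto (fun n : ℕ => B n ^ ((1 : ℝ) / n)) atTop (𝓝 α)) (hα0 : 0 < α)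
    {k : ℕ} (hk : 1 ≤ k) : (A k : ℝ) / α ^ k ≤ k := by
  rw [div_le_iff₀ (by positivity)]
  exact A_le_pow hα hk

/-- the base: a good size in `[n, 3 n]` -/
theorem base (hα : Tendsto (fun n : ℕ => B n ^ ((1 : ℝ) / n)) atTop (𝓝 α)) {n : ℕ} (hn : 1 ≤ n) :
    ∃ k, n ≤ k ∧ k ≤ 3 * n ∧ 1 / (2 ^ 46 * (n : ℝ) ^ 8) ≤ rho α k := by
  classical
  obtain ⟨hα0, hw⟩ := window_lower hα (r := 4 * n) (by omega)
  have hn0 : (1 : ℝ) ≤ n := by exact_mod_cast hn
  -- a large term of the window sum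
  obtain ⟨m, hm, hm2⟩ : ∃ m ∈ Finset.Icc (4 * n) (128 * (4 * n) ^ 2),
      1 / (2 ^ 19 * (n : ℝ) ^ 2) ≤ (A m : ℝ) / α ^ m := by
    by_contra hcon
    push Not at hcon
    have h1 : ∑ m ∈ Finset.Icc (4 * n) (128 * (4 * n) ^ 2), (A m : ℝ) / α ^ m <
        ∑ m ∈ Finset.Icc (4 * n) (128 * (4 * n) ^ 2), 1 / (2 ^ 19 * (n : ℝ) ^ 2) := by
      refine Finset.sum_lt_sum_of_nonempty ?_ hcon
      rw [Finset.nonempty_Icc]
      nlinarith
    rw [Finset.sum_const, nsmul_eq_mul, Nat.card_Icc] at h1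
    have h2 : ((128 * (4 * n) ^ 2 + 1 - 4 * n : ℕ) : ℝ) ≤ 2048 * (n : ℝ) ^ 2 := by
      have : 128 * (4 * n) ^ 2 + 1 - 4 * n ≤ 2048 * n ^ 2 := by
        have : 128 * (4 * n) ^ 2 = 2048 * n ^ 2 := by ring
        omega
      exact_mod_cast this
    have h3 : ((128 * (4 * n) ^ 2 + 1 - 4 * n : ℕ) : ℝ) * (1 / (2 ^ 19 * (n : ℝ) ^ 2)) ≤
        2048 * (n : ℝ) ^ 2 * (1 / (2 ^ 19 * (n : ℝ) ^ 2)) :=
      mul_le_mul_of_nonneg_right h2 (by positivity)
    have h4 : 2048 * (n : ℝ) ^ 2 * (1 / (2 ^ 19 * (n : ℝ) ^ 2)) = 1 / 256 := by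
      field_simp
      norm_num
    linarith
  rw [Finset.mem_Icc] at hm
  obtain ⟨hm0, hm1⟩ := hm
  have hmn : 1 ≤ m := by omega
  have hmr : (m : ℝ) ≤ 2048 * (n : ℝ) ^ 2 := by
    have : m ≤ 2048 * n ^ 2 := by
      have : 128 * (4 * n) ^ 2 = 2048 * n ^ 2 := by ring
      omega
    exact_mod_cast this
  have hm0' : (0 : ℝ) < m := by exact_mod_cast hmn
  have hB : 1 / (2 ^ 30 * (n : ℝ) ^ 4) ≤ B m / α ^ m := by
    have h1 : B m / α ^ m = ((A m : ℝ) / α ^ m) / m := by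
      unfold B
      rw [div_right_comm]
    rw [h1, le_div_iff₀ hm0']
    refine le_trans ?_ hm2
    calc 1 / (2 ^ 30 * (n : ℝ) ^ 4) * m ≤ 1 / (2 ^ 30 * (n : ℝ) ^ 4) * (2048 * (n : ℝ) ^ 2) :=
          mul_le_mul_of_nonneg_left hmr (by positivity)
      _ = 1 / (2 ^ 19 * (n : ℝ) ^ 2) := by
          field_simp
          norm_num
  obtain ⟨k, hk1, hk2, hk3⟩ := cut_real hα0 hn (n := m) (by omega)
  have hk0 : 1 ≤ k := by omega
  refine ⟨k, hk1, by omega, ?_⟩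
  rw [rho_eq hk0] at hk3
  have h5 : (A (m - k) : ℝ) / α ^ (m - k) ≤ 2048 * (n : ℝ) ^ 2 := by
    refine (rho_le hα hα0 (by omega)).trans (le_trans ?_ hmr)
    exact_mod_cast Nat.sub_le m k
  have hkn : (k : ℝ) ≤ 3 * n := by exact_mod_cast (by omega : k ≤ 3 * n)
  have hrho : 0 < rho α k := by
    unfold rho
    exact div_pos (B_pos hk0) (by positivity)
  have h6 : 8 * (n : ℝ) * (k * rho α k) * ((A (m - k) : ℝ) / α ^ (m - k)) ≤
      8 * (n : ℝ) * (3 * n * rho α k) * (2048 * (n : ℝ) ^ 2) := by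
    have h7 : 0 ≤ (A (m - k) : ℝ) / α ^ (m - k) := by positivity
    have h8 : (k : ℝ) * rho α k ≤ 3 * n * rho α k := mul_le_mul_of_nonneg_right hkn hrho.le
    have h9 : 8 * (n : ℝ) * (k * rho α k) ≤ 8 * (n : ℝ) * (3 * n * rho α k) :=
      mul_le_mul_of_nonneg_left h8 (by positivity)
    exact mul_le_mul h9 h5 h7 (by positivity)
  have h10 : 1 / (2 ^ 30 * (n : ℝ) ^ 4) ≤ 2 ^ 16 * (n : ℝ) ^ 4 * rho α k := by
    refine (hB.trans (hk3.trans h6)).trans ?_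
    have : 8 * (n : ℝ) * (3 * n * rho α k) * (2048 * (n : ℝ) ^ 2) =
        49152 * (n : ℝ) ^ 4 * rho α k := by ring
    rw [this]
    have h11 : 0 ≤ (n : ℝ) ^ 4 * rho α k := by positivity
    nlinarith
  rw [div_le_iff₀ (by positivity)] at h10 ⊢
  calc (1 : ℝ) ≤ 2 ^ 16 * (n : ℝ) ^ 4 * rho α k * (2 ^ 30 * (n : ℝ) ^ 4) := h10
    _ = rho α k * (2 ^ 46 * (n : ℝ) ^ 8) := by ring

/-- one step towards `n` -/
theorem step (hα : Tendsto (fun n : ℕ => B n ^ ((1 : ℝ) / n)) atTop (𝓝 α)) (hα0 : 0 < α)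
    {n k : ℕ} (hn : 1 ≤ n) (hk : n < k) (hk' : k ≤ 3 * n) :
    ∃ j, n ≤ j ∧ 3 * (j - n) ≤ 2 * (k - n) ∧ rho α k / (72 * (n : ℝ) ^ 3) ≤ rho α j := by
  obtain ⟨m, rfl⟩ : ∃ m, k = n + m := ⟨k - n, by omega⟩
  have hm : 1 ≤ m := by omega
  set s := (m + 2) / 3 with hs
  have hs1 : 1 ≤ s := by omega
  obtain ⟨t, ht1, ht2, ht3⟩ := cut_real hα0 hs1 (n := n + m) (by omega)
  have ht0 : 1 ≤ t := by omega
  refine ⟨n + m - t, by omega, by omega, ?_⟩
  have hj : 1 ≤ n + m - t := by omega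
  rw [rho_eq hj] at ht3
  have hn0 : (1 : ℝ) ≤ n := by exact_mod_cast hn
  have h1 : (A t : ℝ) / α ^ t ≤ 3 * s := by
    refine (rho_le hα hα0 ht0).trans ?_
    exact_mod_cast (by omega : t ≤ 3 * s)
  have hsn : (s : ℝ) ≤ n := by exact_mod_cast (by omega : s ≤ n)
  have hjn : ((n + m - t : ℕ) : ℝ) ≤ 3 * n := by exact_mod_cast (by omega : n + m - t ≤ 3 * n)
  have hrho : 0 < rho α (n + m - t) := by
    unfold rho
    exact div_pos (B_pos hj) (by positivity)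
  rw [div_le_iff₀ (by positivity)]
  refine (show rho α (n + m) ≤ _ from ht3).trans ?_
  have hs0 : (0 : ℝ) ≤ s := Nat.cast_nonneg _
  have hA0 : 0 ≤ (A t : ℝ) / α ^ t := by positivity
  calc 8 * (s : ℝ) * ((A t : ℝ) / α ^ t) * (((n + m - t : ℕ) : ℝ) * rho α (n + m - t))
      ≤ 8 * (n : ℝ) * (3 * n) * ((3 * n) * rho α (n + m - t)) := by
        have h2 : 8 * (s : ℝ) * ((A t : ℝ) / α ^ t) ≤ 8 * (n : ℝ) * (3 * n) := by
          refine mul_le_mul (by linarith) (h1.trans (by linarith)) hA0 (by positivity)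
        exact mul_le_mul h2 (mul_le_mul_of_nonneg_right hjn hrho.le) (by positivity)
          (by positivity)
    _ = rho α (n + m - t) * (72 * (n : ℝ) ^ 3) := by ring

/-- **polynomial lower bound in every window** -/
theorem main (hα : Tendsto (fun n : ℕ => B n ^ ((1 : ℝ) / n)) atTop (𝓝 α)) {n : ℕ} (hn : 1 ≤ n)
    (J : ℕ) : ∃ k, n ≤ k ∧ 3 ^ J * (k - n) ≤ 2 ^ J * (2 * n) ∧
      1 / (2 ^ 46 * (n : ℝ) ^ 8 * (72 * (n : ℝ) ^ 3) ^ J) ≤ rho α k := by
  have hn0 : (1 : ℝ) ≤ n := by exact_mod_cast hn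
  obtain ⟨hα0, -⟩ := window_lower hα (r := 1) le_rfl
  induction J with
  | zero =>
    obtain ⟨k, h1, h2, h3⟩ := base hα hn
    refine ⟨k, h1, by simp only [pow_zero, one_mul]; omega, ?_⟩
    rw [pow_zero, mul_one]
    exact h3
  | succ J ih =>
    obtain ⟨k, h1, h2, h3⟩ := ih
    rcases Nat.lt_or_ge n k with hlt | hge
    · have hk3 : k ≤ 3 * n := by
        have h4 : 2 ^ J ≤ 3 ^ J := Nat.pow_le_pow_left (by norm_num) J
        have h5 : 3 ^ J * (k - n) ≤ 3 ^ J * (2 * n) :=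
          h2.trans (Nat.mul_le_mul_right _ h4)
        have h6 := Nat.le_of_mul_le_mul_left h5 (by positivity)
        omega
      obtain ⟨j, hj1, hj2, hj3⟩ := step hα hα0 hn hlt hk3
      refine ⟨j, hj1, ?_, ?_⟩
      · calc 3 ^ (J + 1) * (j - n) = 3 ^ J * (3 * (j - n)) := by ring
          _ ≤ 3 ^ J * (2 * (k - n)) := Nat.mul_le_mul_left _ hj2
          _ = 2 * (3 ^ J * (k - n)) := by ring
          _ ≤ 2 * (2 ^ J * (2 * n)) := Nat.mul_le_mul_left _ h2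
          _ = 2 ^ (J + 1) * (2 * n) := by ring
      · refine le_trans ?_ hj3
        rw [pow_succ (72 * (n : ℝ) ^ 3) J, ← mul_assoc, ← div_div]
        exact div_le_div_of_nonneg_right h3 (by positivity)
    · have hk : k = n := le_antisymm hge h1
      subst hk
      refine ⟨k, le_rfl, by simp, ?_⟩
      refine le_trans ?_ h3
      refine one_div_le_one_div_of_le (by positivity) ?_
      have h4 : (1 : ℝ) ≤ 72 * (k : ℝ) ^ 3 := by
        have : (1 : ℝ) ≤ (k : ℝ) ^ 3 := one_le_pow₀ hn0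
        linarith
      have h5 : (72 * (k : ℝ) ^ 3) ^ J ≤ (72 * (k : ℝ) ^ 3) ^ (J + 1) :=
        pow_le_pow_right₀ h4 (Nat.le_succ J)
      exact mul_le_mul_of_nonneg_left h5 (by positivity)

end Pool.Agent.helper71.SB
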