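import Pool.Agent.helper68.Poly.Anal

set_option autoImplicit false

/-!
# Cutting off a subtree of prescribed size up to a constant factor (helper71, MP_d35578_co)
-/

open Finset

namespace Pool.Agent.helper71.SB

open Pool.Agent.helper68 Pool.Agent.helper68.Poly

variable {S : Finset (ℤ × ℤ)} {o : ℤ × ℤ} {par : ℤ × ℤ → ℤ × ℤ} {d : ℤ × ℤ → ℕ}

/-- the four unit vectors -/
def N4 : Finset (ℤ × ℤ) := {(1, 0), (-1, 0), (0, 1), (0, -1)}

theorem card_N4 : N4.card = 4 := by decide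

theorem mem_N4 {p q : ℤ × ℤ} (h : Nb p q) : p - q ∈ N4 := by
  unfold Nb at h
  unfold N4
  have h1 := abs_nonneg (p.1 - q.1)
  have h2 := abs_nonneg (p.2 - q.2)
  rcases abs_cases (p.1 - q.1) with ⟨h3, _⟩ | ⟨h3, _⟩ <;>
  rcases abs_cases (p.2 - q.2) with ⟨h4, _⟩ | ⟨h4, _⟩ <;>
  simp only [Finset.mem_insert, Finset.mem_singleton, Prod.ext_iff, Prod.fst_sub, Prod.snd_sub] <;>
  omega

/-- the children of a vertex -/
noncomputable def ch (S : Finset (ℤ × ℤ)) (o : ℤ × ℤ) (par : ℤ × ℤ → ℤ × ℤ) (v : ℤ × ℤ) :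
    Finset (ℤ × ℤ) := S.filter fun c => c ≠ o ∧ par c = v

theorem mem_ch {c v : ℤ × ℤ} : c ∈ ch S o par v ↔ c ∈ S ∧ c ≠ o ∧ par c = v := by
  unfold ch
  rw [Finset.mem_filter]

theorem ch_image (T : RT S o par d) {v c : ℤ × ℤ} (hc : c ∈ ch S o par v) : c - v ∈ N4 := by
  rw [mem_ch] at hc
  obtain ⟨h1, h2, h3⟩ := hc
  have h4 := (T.hp c h1 h2).2.1
  rw [h3] at h4
  exact mem_N4 h4.symm

theorem card_ch (T : RT S o par d) (v : ℤ × ℤ) : (ch S o par v).card ≤ 4 := by
  classical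
  rw [← card_N4]
  refine Finset.card_le_card_of_injOn (fun c => c - v) (fun c hc => ch_image T hc) ?_
  intro c _ c' _ e
  exact sub_left_injective e

theorem card_ch' (T : RT S o par d) {v : ℤ × ℤ} (hv : v ∈ S) (hvo : v ≠ o) :
    (ch S o par v).card ≤ 3 := by
  classical
  obtain ⟨h1, h2, h3⟩ := T.hp v hv hvo
  have hmem : par v - v ∈ N4 := mem_N4 h2
  have hcard : (N4.erase (par v - v)).card = 3 := by
    rw [Finset.card_erase_of_mem hmem, card_N4]
  rw [← hcard]
  refine Finset.card_le_card_of_injOn (fun c => c - v) (fun c hc => ?_) ?_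
  · rw [Finset.mem_coe, Finset.mem_erase]
    refine ⟨?_, ch_image T hc⟩
    intro e
    have hcp : c = par v := sub_left_injective e
    rw [Finset.mem_coe, mem_ch] at hc
    obtain ⟨h4, h5, h6⟩ := hc
    have h7 := (T.hp c h4 h5).2.2
    rw [h6, hcp] at h7
    omega
  · intro c _ c' _ e
    exact sub_left_injective e

theorem sub_root (T : RT S o par d) : sub S par d o = S := by
  ext u
  rw [Poly.mem_sub]
  constructor
  · exact fun h => h.1
  · intro h
    refine ⟨h, by rw [T.h0]; exact Nat.zero_le _, ?_⟩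
    rw [T.h0, Nat.sub_zero]
    exact T.iter_root h

theorem sub_subset_ch (T : RT S o par d) {v : ℤ × ℤ} :
    sub S par d v ⊆ insert v ((ch S o par v).biUnion fun c => sub S par d c) := by
  classical
  intro u hu
  rw [Finset.mem_insert, Finset.mem_biUnion]
  by_cases huv : u = v
  · exact Or.inl huv
  right
  have hu' := Poly.mem_sub.mp hu
  obtain ⟨h1, h2, h3⟩ := hu'
  have h4 : d v < d u := by
    rcases lt_or_eq_of_le h2 with h | h
    · exact h
    · rw [h, Nat.sub_self] at h3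
      exact absurd h3 huv
  obtain ⟨h5, h6⟩ := T.iter h1 (d u - d v - 1) (by omega)
  refine ⟨par^[d u - d v - 1] u, ?_, ?_⟩
  · rw [mem_ch]
    refine ⟨h5, T.ne_root (by omega), ?_⟩
    refine (Function.iterate_succ_apply' par (d u - d v - 1) u).symm.trans ?_
    have : (d u - d v - 1).succ = d u - d v := by omega
    rw [this]
    exact h3
  · rw [Poly.mem_sub]
    refine ⟨h1, by omega, ?_⟩
    have : d u - d (par^[d u - d v - 1] u) = d u - d v - 1 := by omega
    rw [this]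

/-- some proper subtree has between `s` and `3 s - 2` cells -/
theorem exists_cut (T : RT S o par d) {s : ℕ} (hs : 1 ≤ s) (h : 4 * s ≤ S.card + 2) :
    ∃ v ∈ S, v ≠ o ∧ s ≤ (sub S par d v).card ∧ (sub S par d v).card + 2 ≤ 3 * s := by
  classical
  set H := S.filter fun v => s ≤ (sub S par d v).card with hH
  have hne : H.Nonempty := by
    refine ⟨o, Finset.mem_filter.mpr ⟨T.ho, ?_⟩⟩
    rw [sub_root T]
    omega
  obtain ⟨v, hvH, hmax⟩ := Finset.exists_max_image H d hne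
  obtain ⟨hvS, hvs⟩ := Finset.mem_filter.mp hvH
  have hch : ∀ c ∈ ch S o par v, (sub S par d c).card ≤ s - 1 := by
    intro c hc
    rw [mem_ch] at hc
    obtain ⟨h1, h2, h3⟩ := hc
    by_contra hlt
    have h4 : c ∈ H := Finset.mem_filter.mpr ⟨h1, by omega⟩
    have h5 := hmax c h4
    have h6 := (T.hp c h1 h2).2.2
    rw [h3] at h6
    omega
  have hcard : (sub S par d v).card ≤ 1 + (ch S o par v).card * (s - 1) := by
    refine (Finset.card_le_card (sub_subset_ch T)).trans ?_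
    refine (Finset.card_insert_le _ _).trans ?_
    rw [add_comm]
    refine Nat.add_le_add_left ?_ 1
    refine Finset.card_biUnion_le.trans ?_
    refine (Finset.sum_le_card_nsmul _ _ (s - 1) hch).trans (le_of_eq (smul_eq_mul _ _))
  by_cases hvo : v = o
  · exfalso
    rw [hvo, sub_root T] at hcard
    have h1 := Nat.mul_le_mul_right (s - 1) (card_ch T o)
    omega
  · refine ⟨v, hvS, hvo, hvs, ?_⟩
    have h1 := Nat.mul_le_mul_right (s - 1) (card_ch' T hvS hvo)
    omega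

/-- **the splitting inequality at scale `s`** -/
theorem split_ineq {n s : ℕ} (hs : 1 ≤ s) (h : 4 * s ≤ n + 2) :
    (BL n n).card ≤ 4 * ∑ k ∈ Finset.Icc s (3 * s - 2), A k * A (n - k) := by
  classical
  have hex : ∀ R ∈ BL n n, ∃ (v b : ℤ × ℤ) (Q : Finset (ℤ × ℤ)), Q ⊆ R ∧ v ∈ Q ∧ b ∈ R \ Q ∧
      Nb v b ∧ Conn Q ∧ Conn (R \ Q) ∧ s ≤ Q.card ∧ Q.card + 2 ≤ 3 * s := by
    intro R hR
    obtain ⟨hc, h0, hconn, -⟩ := mem_AL.mp (mem_BL.mp hR).1
    obtain ⟨par, d, T⟩ := hconn.exists_RT h0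
    obtain ⟨v, hv, hvo, h1, h2⟩ := exists_cut T hs (by rw [hc]; exact h)
    exact ⟨v, par v, sub R par d v, sub_subset v, self_mem_sub hv, T.par_notMem_sub_self hv hvo,
      (T.hp v hv hvo).2.1.symm, (T.sub_RT hv).conn, (T.sdiff_RT hv hvo).conn, h1, h2⟩
  choose! v b Q hQR hvQ hb hnb hcQ hcR hQs hQs' using hex
  have htarget : (N4 ×ˢ ((Finset.Icc s (3 * s - 2)).sigma fun k => AL k k ×ˢ
      AL (n - k) (n - k))).card = 4 * ∑ k ∈ Finset.Icc s (3 * s - 2), A k * A (n - k) := by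
    rw [Finset.card_product, card_N4, Finset.card_sigma]
    congr 1
    exact Finset.sum_congr rfl fun k _ => Finset.card_product _ _
  rw [← htarget]
  apply Finset.card_le_card_of_injOn
    (fun R => ((v R - b R, (⟨(Q R).card, (sh (-(v R)) (Q R), sh (-(b R)) (R \ Q R))⟩ :
      Sigma fun _ : ℕ => Finset (ℤ × ℤ) × Finset (ℤ × ℤ)))))
  · intro R hR
    have hR' : R ∈ BL n n := hR
    have hc : R.card = n := (mem_AL.mp (mem_BL.mp hR').1).1
    have h1 := hQs R hR'
    have h2 := hQs' R hR'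
    rw [Finset.mem_coe, Finset.mem_product, Finset.mem_sigma, Finset.mem_product]
    refine ⟨mem_N4 (hnb R hR'), Finset.mem_Icc.mpr ⟨h1, by simp only; omega⟩, ?_, ?_⟩
    · simp only
      rw [mem_AL_self, card_sh]
      refine ⟨rfl, ?_, (hcQ R hR').sh _⟩
      rw [mem_sh]
      simpa using hvQ R hR'
    · simp only
      rw [mem_AL_self, card_sh, Finset.card_sdiff_of_subset (hQR R hR'), hc]
      refine ⟨rfl, ?_, (hcR R hR').sh _⟩
      rw [mem_sh]
      simpa using hb R hR'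
  · intro R hR R' hR' e
    have hR1 : R ∈ BL n n := hR
    have hR1' : R' ∈ BL n n := hR'
    simp only [Prod.mk.injEq] at e
    obtain ⟨e0, e'⟩ := e
    have e1 := congrArg (fun z : Sigma fun _ : ℕ => Finset (ℤ × ℤ) × Finset (ℤ × ℤ) => z.2.1) e'
    have e2 := congrArg (fun z : Sigma fun _ : ℕ => Finset (ℤ × ℤ) × Finset (ℤ × ℤ) => z.2.2) e'
    simp only at e1 e2
    exact (glue_inj (hQR R hR1) (hQR R' hR1') (mem_BL.mp hR1).2 (mem_BL.mp hR1').2 e1 e2 e0).1

end Pool.Agent.helper71.SB
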