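import Pool.Agent.helper71.SB.Split

set_option autoImplicit false

/-!
# Concatenation of polyominoes and the bound by the growth constant (helper71, MP_d35578_co)
-/

open Finset Filter Topology

namespace Pool.Agent.helper71.SB

open Pool.Agent.helper68 Pool.Agent.helper68.Poly

/-- the number of translation classes -/
noncomputable def bb (n : ℕ) : ℕ := (BL n n).card

theorem exists_right {S : Finset (ℤ × ℤ)} (h : S.Nonempty) :
    ∃ w ∈ S, ∀ p ∈ S, p.1 ≤ w.1 := Finset.exists_max_image S (fun p => p.1) h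

theorem conn_union {S T : Finset (ℤ × ℤ)} (hS : Conn S) (hT : Conn T) {a b : ℤ × ℤ}
    (ha : a ∈ S) (hb : b ∈ T) (hab : Nb a b) : Conn (S ∪ T) := by
  unfold Conn at *
  rw [Finset.coe_union]
  exact SimpleGraph.connected_induce_union hS.preconnected hT.preconnected
    (Finset.mem_coe.mpr ha) (Finset.mem_coe.mpr hb) (cellG_adj.mpr hab)

theorem super {n m : ℕ} : bb n * bb m ≤ bb (n + m) := by
  classical
  unfold bb
  have hex : ∀ R ∈ BL n n, ∃ w ∈ R, ∀ p ∈ R, p.1 ≤ w.1 := fun R hR =>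
    exists_right ⟨0, (mem_AL.mp (mem_BL.mp hR).1).2.1⟩
  choose! w hw hmax using hex
  rw [← Finset.card_product]
  have hl : ∀ R ∈ BL n n, ∀ Q ∈ BL m m, ∀ p ∈ sh (w R + (1, 0)) Q, (w R).1 + 1 ≤ p.1 := by
    intro R _ Q hQ p hp
    rw [mem_sh] at hp
    have h1 := (mem_BL.mp hQ).2.2 _ hp
    simp only [Prod.fst_sub, Prod.snd_sub, Prod.fst_add, Prod.snd_add, Prod.fst_zero,
      Prod.snd_zero] at h1
    omega
  apply Finset.card_le_card_of_injOn (fun x => x.1 ∪ sh (w x.1 + (1, 0)) x.2)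
  · rintro ⟨R, Q⟩ hx
    rw [Finset.mem_coe, Finset.mem_product] at hx
    obtain ⟨hR, hQ⟩ := hx
    simp only at hR hQ
    change R ∪ sh (w R + (1, 0)) Q ∈ (BL (n + m) (n + m) : Set (Finset (ℤ × ℤ)))
    rw [Finset.mem_coe, mem_BL, mem_AL_self]
    obtain ⟨hR1, hR2⟩ := mem_BL.mp hR
    obtain ⟨hQ1, hQ2⟩ := mem_BL.mp hQ
    rw [mem_AL_self] at hR1 hQ1
    refine ⟨⟨?_, Finset.mem_union_left _ hR1.2.1, ?_⟩, Finset.mem_union_left _ hR1.2.1, ?_⟩
    · rw [Finset.card_union_of_disjoint, card_sh, hR1.1, hQ1.1]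
      rw [Finset.disjoint_left]
      intro p hp hp'
      have h1 := hmax R hR p hp
      have h2 := hl R hR Q hQ p hp'
      omega
    · refine conn_union hR1.2.2 (hQ1.2.2.sh _) (hw R hR) (b := w R + (1, 0)) ?_ ?_
      · rw [mem_sh, sub_self]
        exact hQ1.2.1
      · unfold Nb
        simp
    · intro p hp
      rw [Finset.mem_union] at hp
      rcases hp with hp | hp
      · exact hR2.2 p hp
      · left
        have h1 := hl R hR Q hQ p hp
        have h2 := hR2.2 _ (hw R hR)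
        omega
  · rintro ⟨R, Q⟩ hx ⟨R', Q'⟩ hx' e
    rw [Finset.mem_coe, Finset.mem_product] at hx hx'
    obtain ⟨hR, hQ⟩ := hx
    obtain ⟨hR', hQ'⟩ := hx'
    simp only at hR hQ hR' hQ' e
    have key : ∀ R ∈ BL n n, ∀ Q ∈ BL m m, ∀ R' ∈ BL n n, ∀ Q' ∈ BL m m,
        R ∪ sh (w R + (1, 0)) Q = R' ∪ sh (w R' + (1, 0)) Q' → (w R).1 ≤ (w R').1 → R = R' := by
      intro R hR Q hQ R' hR' Q' hQ' e hle
      apply Finset.eq_of_subset_of_card_le
      · intro p hp
        have h1 : p ∈ R' ∪ sh (w R' + (1, 0)) Q' := by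
          rw [← e]
          exact Finset.mem_union_left _ hp
        rw [Finset.mem_union] at h1
        rcases h1 with h1 | h1
        · exact h1
        · exfalso
          have h2 := hmax R hR p hp
          have h3 := hl R' hR' Q' hQ' p h1
          omega
      · rw [(mem_AL.mp (mem_BL.mp hR).1).1, (mem_AL.mp (mem_BL.mp hR').1).1]
    have hRR : R = R' := by
      rcases le_total (w R).1 (w R').1 with h | h
      · exact key R hR Q hQ R' hR' Q' hQ' e h
      · exact (key R' hR' Q' hQ' R hR Q hQ e.symm h).symm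
    subst hRR
    have hdis : ∀ Q ∈ BL m m, Disjoint R (sh (w R + (1, 0)) Q) := by
      intro Q hQ
      rw [Finset.disjoint_left]
      intro p hp hp'
      have h1 := hmax R hR p hp
      have h2 := hl R hR Q hQ p hp'
      omega
    have h1 : sh (w R + (1, 0)) Q = sh (w R + (1, 0)) Q' := by
      have h2 : (R ∪ sh (w R + (1, 0)) Q) \ R = (R ∪ sh (w R + (1, 0)) Q') \ R := by rw [e]
      rwa [Finset.union_sdiff_cancel_left (hdis Q hQ),
        Finset.union_sdiff_cancel_left (hdis Q' hQ')] at h2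
    have h3 := congrArg (sh (-(w R + (1, 0)))) h1
    rw [sh_sh, sh_sh, add_neg_cancel, sh_zero, sh_zero] at h3
    rw [h3]

theorem super_pow {k : ℕ} (j : ℕ) : bb k ^ (j + 1) ≤ bb ((j + 1) * k) := by
  induction j with
  | zero => simp
  | succ j ih =>
    have h1 := super (n := (j + 1) * k) (m := k)
    have h2 : (j + 1) * k + k = (j + 1 + 1) * k := by ring
    rw [h2] at h1
    rw [pow_succ]
    exact (Nat.mul_le_mul_right _ ih).trans h1

theorem bb_le_A (n : ℕ) : bb n ≤ A n := by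
  classical
  unfold bb A BL
  exact Finset.card_le_card (Finset.filter_subset _ _)

theorem bb_le_pow {α : ℝ} (hα : Tendsto (fun n : ℕ => B n ^ ((1 : ℝ) / n)) atTop (𝓝 α))
    {k : ℕ} (hk : 1 ≤ k) : (bb k : ℝ) ≤ α ^ k := by
  have hk0 : (0 : ℝ) < k := by exact_mod_cast hk
  -- the subsequence of multiples of `k`
  have hsub : Tendsto (fun j : ℕ => (j + 1) * k) atTop atTop := by
    refine tendsto_atTop_mono (fun j => ?_) tendsto_id
    have : j + 1 ≤ (j + 1) * k := Nat.le_mul_of_pos_right _ hk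
    simp only [id]
    omega
  have h1 := hα.comp hsub
  have h2 : Tendsto (fun j : ℕ => (bb k : ℝ) ^ ((1 : ℝ) / k) *
      ((((j + 1) * k : ℕ) : ℝ) ^ ((1 : ℝ) / (((j + 1) * k : ℕ) : ℝ)))⁻¹) atTop
      (𝓝 ((bb k : ℝ) ^ ((1 : ℝ) / k) * 1⁻¹)) := by
    refine Tendsto.const_mul _ (Tendsto.inv₀ ?_ one_ne_zero)
    have h3 : Tendsto (fun n : ℕ => (n : ℝ) ^ ((1 : ℝ) / n)) atTop (𝓝 1) :=
      tendsto_rpow_div.comp tendsto_natCast_atTop_atTop
    exact h3.comp hsub
  have h3 : (bb k : ℝ) ^ ((1 : ℝ) / k) * 1⁻¹ ≤ α := by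
    refine le_of_tendsto_of_tendsto' h2 h1 fun j => ?_
    simp only [Function.comp_apply]
    set N : ℕ := (j + 1) * k with hN
    have hN1 : 1 ≤ N := Nat.mul_pos (Nat.succ_pos j) hk
    have hN0 : (0 : ℝ) < N := by exact_mod_cast hN1
    have h4 : ((bb k : ℝ) ^ (j + 1)) / N ≤ B N := by
      unfold B
      refine div_le_div_of_nonneg_right ?_ hN0.le
      exact_mod_cast (super_pow j).trans (bb_le_A N)
    have h5 : (bb k : ℝ) ^ ((1 : ℝ) / k) = ((bb k : ℝ) ^ (j + 1)) ^ ((1 : ℝ) / N) := by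
      rw [← Real.rpow_natCast, ← Real.rpow_mul (Nat.cast_nonneg _)]
      congr 1
      rw [hN]
      push_cast
      field_simp
    rw [h5, ← Real.inv_rpow hN0.le, ← Real.mul_rpow (by positivity) (by positivity)]
    refine Real.rpow_le_rpow (by positivity) ?_ (by positivity)
    rw [← div_eq_mul_inv]
    exact h4
  rw [inv_one, mul_one] at h3
  calc (bb k : ℝ) = ((bb k : ℝ) ^ ((1 : ℝ) / k)) ^ k := by
        rw [← Real.rpow_natCast, ← Real.rpow_mul (Nat.cast_nonneg _)]
        rw [one_div, inv_mul_cancel₀ hk0.ne', Real.rpow_one]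
    _ ≤ α ^ k := pow_le_pow_left₀ (by positivity) h3 k

theorem A_le_pow {α : ℝ} (hα : Tendsto (fun n : ℕ => B n ^ ((1 : ℝ) / n)) atTop (𝓝 α))
    {k : ℕ} (hk : 1 ≤ k) : (A k : ℝ) ≤ k * α ^ k := by
  have h1 : (A k : ℝ) ≤ k * bb k := by
    have := card_AL_le k k
    unfold A bb
    exact_mod_cast this
  refine h1.trans (mul_le_mul_of_nonneg_left (bb_le_pow hα hk) (Nat.cast_nonneg _))

end Pool.Agent.helper71.SB
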